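import Pool.Agent.Lib.MP_4a5b11_an.Dense

open Pool.Agent.Lib.MP_4a5b11_an

/-- In every subinterval of `[0, 2/3]` there are continuum many ordinates whose level set is
countably infinite and which are not values of the Takagi function at dyadic rationals. -/
theorem Pool.Agent.Results.MP_4a5b11_an.ContinuumDense.result :
    ∀ a b : ℝ, 0 ≤ a → a < b → b ≤ 2 / 3 →
      Cardinal.mk {y : ℝ | y ∈ Set.Ioo a b ∧ y ∈ Sco ∧
        ∀ m k : ℕ, k ≤ 2 ^ m → takagi ((k : ℝ) / 2 ^ m) ≠ y} = Cardinal.continuum :=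
  fun _ _ ha hab hb => continuum_dense ha hab hb
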