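import Pool.Agent.FS.TakagiRank.Main

open Pool.Agent.Lib.MP_4a5b11_an

/-- Every subinterval of `[0, 2/3]` contains an ordinate whose level set is countably infinite
and has infinitely many accumulation points. -/
theorem Pool.Agent.Results.MP_4a5b11_an.InfiniteLimitPoints.result :
    ∀ a b : ℝ, 0 ≤ a → a < b → b ≤ 2 / 3 →
      ∃ y ∈ Set.Ioo a b, y ∈ Sco ∧ (derivedSet (levelSet y)).Infinite :=
  fun _ _ ha hab hb => Pool.Agent.FS.TakagiRank.dense_main ha hab hb
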